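import Pool.Agent.Run7.h840.Final2

/-!
# Unit disk graph recognition is `∃ℝ`-hard for graphs of bounded degree

The answer to the question is yes: `UDG_Δ` is `∃ℝ`-hard for every `Δ ≥ 10 ^ 15`.

Idea of the proof.  A strict sign matrix of points and lines in the plane is encoded by a graph of
bounded degree.  A long chain of hexagonal wheels with *squaring gadgets* forces clusters of
vertices whose diameter is doubly exponentially small: the rims of a wheel around `p` which have to
avoid three satellites of `p` at distance at most `s` confine all vertices adjacent to all rims to
a disk of radius `200 s²`.  The chain starts at a ring of `6 · 10 ^ 13` vertices, which confines its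
common neighbours to a small disk (this constant size ring is the reason for the large `Δ`).
Two chains (spines) span a grid of rhombi, which copies the two-dimensional vectors given by the
steps of the spines.  At the nodes of the grid one adjacency compares the distance of `z_p` to
`q_j ± n_j` with one, which is the side of the line through `q_j` with normal `n_j` on which the
point `z_p` lies, up to a tiny quadratic error; in the soundness direction the exactness is
recovered by a second copy of the point, displaced by the scale `s`, against errors of size `s²`.
-/

namespace Pool.Agent.Results.MP_1cb9f1_lc.BoundedDegreeHard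

open Pool.Agent.NPC Pool.Agent.NPC.ER

/-- `G` is a unit disk graph: there are closed disks of radius one in the plane such that two
distinct vertices are adjacent if and only if their disks intersect. -/
def IsUnitDiskGraph {V : Type} (G : SimpleGraph V) : Prop :=
  ∃ p : V → EuclideanSpace ℝ (Fin 2), ∀ u v, u ≠ v →
    (G.Adj u v ↔ (Metric.closedBall (p u) 1 ∩ Metric.closedBall (p v) 1).Nonempty)

/-- The decision problem `UDG_Δ`: the set of the codes of the unit disk graphs of maximum degree at
most `Δ`. -/
def UDG (Δ : ℕ) : Set (List Bool) := lang fun g : GCode =>
  g.WF ∧ (∀ v : g.V, (g.graph.neighborSet v).ncard ≤ Δ) ∧ IsUnitDiskGraph g.graph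

/-- For every `Δ ≥ 10 ^ 15` the decision problem `UDG_Δ` is `∃ℝ`-hard under polynomial-time
many-one reductions; in particular there is a constant `Δ` such that `UDG_Δ` is `∃ℝ`-hard. -/
theorem result : ∀ Δ : ℕ, 10 ^ 15 ≤ Δ → ERHard (UDG Δ) :=
  fun Δ hΔ => Run7.h840.final' Δ hΔ

end Pool.Agent.Results.MP_1cb9f1_lc.BoundedDegreeHard
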